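import Pool.Agent.H11.NY.All

/-!
# MP_9b2842_al: alternating type with kernels (`π`-group)-by-soluble

Let `π` be a finite set of primes and `G` a simple group such that every finite subset of `G` lies
in a finite subgroup `L` with a homomorphism onto an alternating group of arbitrarily large degree
some term of the derived series of whose kernel is a `π`-group. Then some non-identity element of
`G` has a centralizer which is not almost soluble.
-/

set_option autoImplicit false

namespace Pool.Agent.Results.MP_9b2842_al.AlternatingSoluble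

theorem result (π : Finset ℕ) (G : Type) [Group G] (hG : IsSimpleGroup G)
    (hcover : ∀ (F : Finset G) (k : ℕ), ∃ (L : Subgroup G) (n : ℕ)
      (φ : L →* alternatingGroup (Fin n)), Finite L ∧ Function.Surjective φ ∧
        (∃ d : ℕ, ∀ p : ℕ, p.Prime → p ∣ Nat.card (derivedSeries φ.ker d) → p ∈ π) ∧
        (∀ x ∈ F, x ∈ L) ∧ k ≤ n) :
    ∃ g : G, g ≠ 1 ∧ ∀ H : Subgroup (Subgroup.centralizer ({g} : Set G)),
      H.index ≠ 0 → ¬ Group.IsSolvable H := by
  have h := Pool.Agent.H11.NY.all_gn G π (by
    intro F k
    obtain ⟨L, n, φ, h1, h2, h3, h4, h5⟩ := hcover F k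
    exact ⟨L, n, φ, ⟨h1, h2, h3⟩, h4, h5⟩)
  by_contra hcon
  apply h
  intro g hg
  by_contra h6
  apply hcon
  refine ⟨g, hg, ?_⟩
  intro H h7 h8
  exact h6 ⟨H, h7, h8⟩

end Pool.Agent.Results.MP_9b2842_al.AlternatingSoluble
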