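import Pool.Agent.H11.NZ.All
import Pool.Agent.H11.NX.All

/-!
# MP_9b2842_al: simple locally finite groups of alternating, `p`- and finitary type

Let `G` be a simple group for which one of the following holds.

(a) (alternating type) For every finite subset `F` of `G` and every `k` there are a finite
subgroup `L` containing `F` and a homomorphism `φ` of `L` onto an alternating group of degree at
least `k` which is non-trivial on the non-identity elements of `F`, and the simple sections of
`ker φ` have soluble outer automorphism groups.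

(b) (`p`-type) The same with a homomorphism `φ` onto a group `PSL(n, K)`, `K` a field of
characteristic `p`, `n ≥ k`, where, modulo a normal `p`-subgroup `P` of `L`, `L` is a central
product of a central extension `A` of `PSL(n, K)` and a further group `B`.

(c) (finitary type) The centralizer of every finite subset of `G` contains a copy of every finite
alternating group.

Then some non-identity element of `G` has a centralizer which is not almost soluble.
-/

set_option autoImplicit false

namespace Pool.Agent.Results.MP_9b2842_al.NonLinearTypes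

theorem result (G : Type) [Group G] (hG : IsSimpleGroup G)
    (hcover :
      (∀ (F : Finset G) (k : ℕ), ∃ (L : Subgroup G) (n : ℕ)
        (φ : L →* alternatingGroup (Fin n)), Finite L ∧ Function.Surjective φ ∧ k ≤ n ∧
          (∀ x ∈ F, ∃ hx : x ∈ L, x ≠ 1 → φ ⟨x, hx⟩ ≠ 1) ∧
          ∀ (T : Type) [Group T], IsSimpleGroup T → ∀ (A : Subgroup L) (f : A →* T),
            A ≤ φ.ker → Function.Surjective f →
            ∃ d : ℕ, derivedSeries (MulAut T) d ≤ (MulAut.conj : T →* MulAut T).range) ∨
      (∃ p : ℕ, p.Prime ∧ ∀ (F : Finset G) (k : ℕ), ∃ (L : Subgroup G)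
        (P A B : Subgroup L) (n : ℕ) (K : Type) (_ : Field K)
        (φ : L →* Matrix.ProjectiveSpecialLinearGroup (Fin n) K),
        Finite L ∧ CharP K p ∧ Function.Surjective φ ∧ k ≤ n ∧
          (∀ x ∈ F, ∃ hx : x ∈ L, x ≠ 1 → φ ⟨x, hx⟩ ≠ 1) ∧
          P.Normal ∧ IsPGroup p P ∧ P ≤ φ.ker ∧ A ⊔ B = ⊤ ∧ ⁅A, B⁆ ≤ P ∧ B ≤ φ.ker ∧
          ⁅A, A ⊓ φ.ker⁆ ≤ P) ∨
      (∀ (F : Finset G) (k : ℕ), ∃ ψ : alternatingGroup (Fin k) →* G,
        Function.Injective ψ ∧ ∀ x ∈ F, ∀ σ, x * ψ σ = ψ σ * x)) :
    ∃ g : G, g ≠ 1 ∧ ∀ H : Subgroup (Subgroup.centralizer ({g} : Set G)),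
      H.index ≠ 0 → ¬ Group.IsSolvable H := by
  rcases hcover with hcover | hcover | hcover
  · have h := Pool.Agent.H11.NZ.all_gnx G (by
      intro F k
      obtain ⟨L, n, φ, h1, h2, h3, h4, h5⟩ := hcover F k
      exact ⟨L, n, φ, ⟨h1, h2, h4, h5⟩, h3⟩)
    by_contra hcon
    apply h
    intro g hg
    by_contra h6
    apply hcon
    refine ⟨g, hg, ?_⟩
    intro H h7 h8
    exact h6 ⟨H, h7, h8⟩
  · obtain ⟨p, hp, hc⟩ := hcover
    obtain ⟨g, r, hr, hrp, hg, hgr⟩ := Pool.Agent.H11.NX.all_ordp G p hp hc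
    exact ⟨g, hg, Pool.Agent.H11.NX.all_pty G p hp hc g r hr hrp hg hgr⟩
  · obtain ⟨g, hg⟩ := exists_ne (1 : G)
    exact ⟨g, hg, Pool.Agent.H11.NX.all_cal G hcover g⟩

end Pool.Agent.Results.MP_9b2842_al.NonLinearTypes
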