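import Pool.Agent.H11.NS.Targets
import Pool.Agent.H86.NS.U1
import Pool.Agent.H94.NS.U2
import Pool.Agent.H47.NS.U3
import Pool.Agent.H47.NS.U4

/-!
# MP_9b2842_al: uniformly almost soluble centralizers of elements of order `p`

For all `p`, `m`, `d` there is `n₀` such that a group, all of whose elements of order `p` have a
centralizer with a subgroup of index at most `m` and derived length at most `d`, has no finite
subgroup with an alternating quotient of degree `n₀` or more.
-/

set_option autoImplicit false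

namespace Pool.Agent.Results.MP_9b2842_al.UniformCentralizers

theorem result (p : ℕ) (hp : p.Prime) (m d : ℕ) : ∃ n₀ : ℕ, ∀ (G : Type) [Group G],
    (∀ g : G, orderOf g = p → ∃ H : Subgroup (Subgroup.centralizer ({g} : Set G)),
      H.index ≠ 0 ∧ H.index ≤ m ∧ derivedSeries H d = ⊥) →
    ∀ (L : Subgroup G), Finite L → ∀ (n : ℕ) (φ : L →* alternatingGroup (Fin n)),
      Function.Surjective φ → n < n₀ := by
  haveI : Fact p.Prime := ⟨hp⟩
  obtain ⟨n₀, h⟩ := Pool.Agent.H47.NS.pf_u4 Pool.Agent.H86.NS.pf_u1 Pool.Agent.H94.NS.pf_u2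
    Pool.Agent.H47.NS.pf_u3 p m d
  refine ⟨n₀, ?_⟩
  intro G _ hG L hL n φ hφ
  exact h G hG L n φ hφ

end Pool.Agent.Results.MP_9b2842_al.UniformCentralizers
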